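import Mathlib
import Pool.Agent.R469.Runs

set_option autoImplicit false

/-!
The zeros among the differences `a(n) = T(n+1) - T(n)` of the Collatz stopping times: their natural
density exists and is equal to the natural density of the integers which reach `1`.
-/

namespace Pool.Agent.Results.MP_34aa70_nt.DensityOfZeros

open Filter Topology

/-- The Collatz map. -/
def C (n : ℕ) : ℕ := if n % 2 = 0 then n / 2 else 3 * n + 1

open Classical in
/-- `T(n)`, the least `k ≥ 0` with `C^k(n) = 1`; `⊤` (undefined) if there is none. -/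
noncomputable def T (n : ℕ) : ℕ∞ :=
  if h : ∃ k : ℕ, C^[k] n = 1 then ((Nat.find h : ℕ) : ℕ∞) else ⊤

/-- `a(n)` is defined and equal to `d`: `T(n)` and `T(n+1)` are defined and `T(n+1) - T(n) = d`. -/
def DifferenceIs (n : ℕ) (d : ℤ) : Prop := ∃ k l : ℕ, T n = k ∧ T (n + 1) = l ∧ (l : ℤ) - k = d

/-- `Z(N)`, the number of the `i`, `1 ≤ i ≤ N`, for which `a(i)` is defined and `a(i) = 0`. -/
noncomputable def Z (N : ℕ) : ℕ := {i : ℕ | 1 ≤ i ∧ i ≤ N ∧ DifferenceIs i 0}.ncard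

/-- The number of the `i`, `1 ≤ i ≤ N`, for which `a(i)` is defined. -/
noncomputable def numDefined (N : ℕ) : ℕ := {i : ℕ | 1 ≤ i ∧ i ≤ N ∧ ∃ d, DifferenceIs i d}.ncard

/-- The positive integers with the property `P` have the natural density `l`. -/
def HasDensity (P : ℕ → Prop) (l : ℝ) : Prop :=
  Tendsto (fun N : ℕ => ({n : ℕ | 1 ≤ n ∧ n ≤ N ∧ P n}.ncard : ℝ) / N) atTop (𝓝 l)

/-- `R n = exp (√(log n) / (log log n)^16)`, which tends to infinity. -/
noncomputable def R (n : ℕ) : ℝ := Real.exp (√ (Real.log n) / (Real.log (Real.log n)) ^ 16)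

lemma diff_zero_iff {n : ℕ} : DifferenceIs n 0 ↔ T n ≠ ⊤ ∧ T (n + 1) = T n := by
  constructor
  · rintro ⟨k, l, h1, h2, h3⟩
    have : l = k := by omega
    subst this
    rw [h1, h2]
    exact ⟨ENat.natCast_ne_top _, rfl⟩
  · rintro ⟨h1, h2⟩
    obtain ⟨k, hk⟩ := ENat.ne_top_iff_exists.1 h1
    exact ⟨k, k, hk.symm, by rw [h2, hk], by omega⟩

lemma diff_def_iff {n : ℕ} : (∃ d, DifferenceIs n d) ↔ T n ≠ ⊤ ∧ T (n + 1) ≠ ⊤ := by
  constructor
  · rintro ⟨d, k, l, h1, h2, _⟩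
    rw [h1, h2]
    exact ⟨ENat.natCast_ne_top _, ENat.natCast_ne_top _⟩
  · rintro ⟨h1, h2⟩
    obtain ⟨k, hk⟩ := ENat.ne_top_iff_exists.1 h1
    obtain ⟨l, hl⟩ := ENat.ne_top_iff_exists.1 h2
    exact ⟨_, k, l, hk.symm, hl.symm, rfl⟩

open Pool.Agent.R469 in
/-- Let `δ` be the natural density of the positive integers `n` for which `T(n)` is defined (that is, which
reach `1`). It exists, `0 < δ ≤ 1`, and `δ = 1` if and only if every positive integer reaches `1`.
(1) `Z(N) / N` tends to `δ`; so `liminf Z(N) / N = δ`, and the inequality `liminf Z(N) / N > 1/2` of Q1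
holds if and only if `δ > 1/2`.
(2) Among the `i ≤ N` for which `a(i)` is defined the proportion of those with `a(i) = 0` tends to `1`.
(3) More precisely, for almost all `n` for which `T(n)` is defined all the terms `a(n + i)`,
`0 ≤ i ≤ R n - 1`, are defined and equal to `0`. -/
theorem result : ∃ δ : ℝ, 0 < δ ∧ δ ≤ 1 ∧ (δ = 1 ↔ ∀ n : ℕ, 1 ≤ n → T n ≠ ⊤) ∧
    HasDensity (fun n => T n ≠ ⊤) δ ∧
    Tendsto (fun N : ℕ => (Z N : ℝ) / N) atTop (𝓝 δ) ∧
    (1 / 2 < liminf (fun N : ℕ => (Z N : ℝ) / N) atTop ↔ 1 / 2 < δ) ∧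
    Tendsto (fun N : ℕ => (Z N : ℝ) / numDefined N) atTop (𝓝 1) ∧
    HasDensity (fun n => T n ≠ ⊤ ∧ ∀ i : ℕ, (i : ℝ) + 1 ≤ R n → DifferenceIs (n + i) 0) δ := by
  obtain ⟨δ, h0, hle, h01, h1, h2⟩ := Runs.dens
  have hruns : HasDensity (fun n => ∀ h : ℕ, (h : ℝ) ≤ R n → T (n + h) = T n) 1 := by
    have h3 := Runs.runs
    refine Pool.Agent.H499R2.CO.HD_congr h3 h3 fun n _ hE => ⟨fun _ h hh => (hE h hh).1, fun _ => hE⟩
  obtain ⟨N0, hN0⟩ := (Runs.R_tendsto.eventually_ge_atTop (2 : ℝ)).exists_forall_of_atTop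
  have hlarge := Pool.Agent.H499R2.HL.HD_large N0
  have hE := Pool.Agent.H499R2.HL.HD_and hruns hlarge
  have hZ : HasDensity (fun n => DifferenceIs n 0) δ := by
    refine Pool.Agent.H499R2.CO.HD_congr hE h1 fun n _ hn => ?_
    rw [diff_zero_iff]
    have h3 : T (n + 1) = T n := hn.1 1 (by push_cast; linarith [hN0 n hn.2, show Runs.R n = R n from rfl])
    exact ⟨fun h => ⟨h, h3⟩, fun h => h.1⟩
  have hD : HasDensity (fun n => ∃ d, DifferenceIs n d) δ := by
    refine Pool.Agent.H499R2.CO.HD_congr hE h1 fun n _ hn => ?_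
    rw [diff_def_iff]
    have h3 : T (n + 1) = T n := hn.1 1 (by push_cast; linarith [hN0 n hn.2, show Runs.R n = R n from rfl])
    rw [h3]
    exact ⟨fun h => ⟨h, h⟩, fun h => h.1⟩
  have hZt : Tendsto (fun N : ℕ => (Z N : ℝ) / N) atTop (𝓝 δ) := hZ
  have hDt : Tendsto (fun N : ℕ => (numDefined N : ℝ) / N) atTop (𝓝 δ) := hD
  refine ⟨δ, h0, hle, h01, h1, hZt, ?_, ?_, ?_⟩
  · rw [hZt.liminf_eq]
  · have h4 := hZt.div hDt h0.ne'
    rw [div_self h0.ne'] at h4
    refine h4.congr' ?_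
    filter_upwards [eventually_gt_atTop 0] with N hN
    have hN' : (N : ℝ) ≠ 0 := by exact_mod_cast hN.ne'
    rw [Pi.div_apply, div_div_div_cancel_right₀ hN']
  · refine Pool.Agent.H499R2.CO.HD_congr hE h1 fun n _ hn => ?_
    constructor
    · intro hfin
      refine ⟨hfin, fun i hi => ?_⟩
      rw [diff_zero_iff]
      have h5 : T (n + i) = T n := hn.1 i (by linarith)
      have h6 : T (n + i + 1) = T n := hn.1 (i + 1) (by push_cast; exact hi)
      rw [h5]
      exact ⟨hfin, h6⟩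
    · exact fun h => h.1

end Pool.Agent.Results.MP_34aa70_nt.DensityOfZeros
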